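import Pool.Agent.H60.BD.ETA

/-!
Row BMP of the board bdc_modules: a kernel whose Fourier transform is 1 on the unit ball.
-/

open MeasureTheory SchwartzMap
open scoped ENNReal NNReal FourierTransform

namespace Pool.Agent.H60.BD

open Pool.Agent.H93.BD

section Gen

variable {V : Type*} [NormedAddCommGroup V] [InnerProductSpace ℝ V] [MeasurableSpace V]
  [BorelSpace V] [FiniteDimensional ℝ V]

lemma exists_bmp : ∃ ψ : V → ℂ, Continuous ψ ∧ Integrable ψ ∧
    (∀ N : ℕ, ∃ C : ℝ, ∀ u, ‖ψ u‖ ≤ C * ((1 + ‖u‖) ^ N)⁻¹) ∧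
    ∀ ξ : V, ‖ξ‖ ≤ 1 → ∫ u, ψ u * Complex.exp (-((inner ℝ ξ u : ℝ) : ℂ) * Complex.I) = 1 := by
  let b : ContDiffBump (0 : V) := ⟨1, 2, by norm_num, by norm_num⟩
  have hbs : ContDiff ℝ (⊤ : ℕ∞) (fun ξ => (b ξ : ℂ)) :=
    Complex.ofRealCLM.contDiff.comp b.contDiff
  have hbc : HasCompactSupport (fun ξ => (b ξ : ℂ)) := by
    refine b.hasCompactSupport.mono ?_
    intro ξ hξ
    simp only [Function.mem_support] at hξ ⊢
    intro h0
    exact hξ (by simp [h0])
  let f : 𝓢(V, ℂ) := hbc.toSchwartzMap hbs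
  obtain ⟨F, hF⟩ : ∃ F : 𝓢(V, ℂ), F = 𝓕 f := ⟨_, rfl⟩
  have hpi0 : (0 : ℝ) < 2 * Real.pi := by linarith [Real.pi_gt_three]
  let R : ℝ := -(2 * Real.pi)⁻¹
  have hR : R ≠ 0 := by
    simp only [R]
    exact neg_ne_zero.2 (inv_ne_zero hpi0.ne')
  let κ : ℂ := ((|(R ^ Module.finrank ℝ V)⁻¹| : ℝ) : ℂ)⁻¹
  have hκ0 : |(R ^ Module.finrank ℝ V)⁻¹| ≠ 0 := by positivity
  refine ⟨fun u => κ * F (R • u), ?_, ?_, ?_, ?_⟩
  · exact continuous_const.mul (F.continuous.comp (continuous_const_smul R))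
  · exact (F.integrable.comp_smul hR).const_mul κ
  · intro N
    obtain ⟨C, hC0, hC⟩ := schwartz_decay F N
    refine ⟨‖κ‖ * (C * (2 * Real.pi) ^ N), fun u => ?_⟩
    rw [norm_mul, mul_assoc]
    refine mul_le_mul_of_nonneg_left ?_ (norm_nonneg _)
    refine (hC _).trans ?_
    rw [mul_assoc]
    refine mul_le_mul_of_nonneg_left ?_ hC0
    have e : (2 * Real.pi) ^ N * ((1 + ‖u‖) ^ N)⁻¹ = (((2 * Real.pi)⁻¹ * (1 + ‖u‖)) ^ N)⁻¹ := by
      rw [mul_pow _ (1 + ‖u‖), mul_inv, inv_pow, inv_inv]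
    rw [e]
    apply inv_anti₀ (by positivity)
    apply pow_le_pow_left₀ (by positivity)
    rw [norm_smul]
    simp only [R, norm_neg]
    rw [Real.norm_of_nonneg (by positivity), mul_add, mul_one]
    have : (2 * Real.pi)⁻¹ ≤ 1 := inv_le_one_of_one_le₀ (by linarith [Real.pi_gt_three])
    linarith
  · intro ξ hξ
    have e1 : ∀ u : V, κ * F (R • u) * Complex.exp (-((inner ℝ ξ u : ℝ) : ℂ) * Complex.I)
        = κ * (fun w : V => Complex.exp (((2 * Real.pi * inner ℝ w ξ : ℝ) : ℂ) * Complex.I)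
          • F w) (R • u) := by
      intro u
      simp only [smul_eq_mul]
      rw [mul_assoc, mul_comm (F (R • u)) (Complex.exp _)]
      congr 4
      rw [inner_smul_left, real_inner_comm]
      simp only [R, conj_trivial]
      push_cast
      have : (Real.pi : ℂ) ≠ 0 := by exact_mod_cast Real.pi_ne_zero
      field_simp
    calc ∫ u, κ * F (R • u) * Complex.exp (-((inner ℝ ξ u : ℝ) : ℂ) * Complex.I)
        = ∫ u, κ * (fun w : V => Complex.exp (((2 * Real.pi * inner ℝ w ξ : ℝ) : ℂ) * Complex.I)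
          • F w) (R • u) := by
          congr 1
          ext u
          exact e1 u
      _ = κ * ∫ u, (fun w : V => Complex.exp (((2 * Real.pi * inner ℝ w ξ : ℝ) : ℂ) * Complex.I)
          • F w) (R • u) := integral_const_mul _ _
      _ = κ * (|(R ^ Module.finrank ℝ V)⁻¹| • 𝓕⁻ (F : V → ℂ) ξ) := by
          rw [Real.fourierInv_eq' (F : V → ℂ) ξ]
          congr 1
          exact Measure.integral_comp_smul volume
            (fun w : V => Complex.exp (((2 * Real.pi * inner ℝ w ξ : ℝ) : ℂ) * Complex.I) • F w) R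
      _ = 𝓕⁻ (F : V → ℂ) ξ := by
          rw [Complex.real_smul, ← mul_assoc]
          have : κ * ((|(R ^ Module.finrank ℝ V)⁻¹| : ℝ) : ℂ) = 1 := by
            simp only [κ]
            exact inv_mul_cancel₀ (by exact_mod_cast hκ0)
          rw [this, one_mul]
      _ = f ξ := by
          rw [← SchwartzMap.fourierInv_coe, hF, FourierTransform.fourierInv_fourier_eq]
      _ = 1 := by
          change (b ξ : ℂ) = 1
          rw [b.one_of_mem_closedBall (by simpa using hξ)]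
          simp

end Gen

theorem pf_BMP : T_BMP := fun _ => exists_bmp

end Pool.Agent.H60.BD
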