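import Pool.Agent.H93.BD.Targets

/-!
Row ETA of the board bdc_modules: a function with compact Fourier support that is at least 1 on
the unit ball and has rapid decay.
-/

open MeasureTheory SchwartzMap
open scoped ENNReal NNReal FourierTransform

namespace Pool.Agent.H60.BD

open Pool.Agent.H93.BD

section Gen

variable {V : Type*} [NormedAddCommGroup V] [InnerProductSpace ℝ V] [MeasurableSpace V]
  [BorelSpace V] [FiniteDimensional ℝ V]

omit [MeasurableSpace V] [BorelSpace V] [FiniteDimensional ℝ V] in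
lemma schwartz_decay (f : 𝓢(V, ℂ)) (N : ℕ) :
    ∃ C : ℝ, 0 ≤ C ∧ ∀ x, ‖f x‖ ≤ C * ((1 + ‖x‖) ^ N)⁻¹ := by
  have key : ∀ x, (1 + ‖x‖) ^ N * ‖f x‖ ≤
      2 ^ N * (Finset.Iic ((N, 0) : ℕ × ℕ)).sup (fun m => SchwartzMap.seminorm ℝ m.1 m.2) f := by
    intro x
    have h := one_add_le_sup_seminorm_apply (𝕜 := ℝ) (m := (N, 0)) (k := N) (n := 0) le_rfl le_rfl
      f x
    rwa [norm_iteratedFDeriv_zero] at h
  refine ⟨_, le_trans (by positivity) (key 0), fun x => ?_⟩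
  rw [← div_eq_mul_inv, le_div_iff₀ (by positivity), mul_comm]
  exact key x

/-- the integral in the normalisation of the board -/
lemma fi_eq (h : V → ℂ) (y : V) :
    ∫ ξ, h ξ * Complex.exp (((inner ℝ ξ y : ℝ) : ℂ) * Complex.I)
      = 𝓕 h (-((2 * Real.pi)⁻¹ • y)) := by
  rw [Real.fourier_eq']
  congr 1
  ext v
  rw [smul_eq_mul, mul_comm]
  congr 3
  rw [inner_neg_right, inner_smul_right]
  field_simp

lemma decay_int (h : V → ℂ) (hc : HasCompactSupport h) (hs : ContDiff ℝ (⊤ : ℕ∞) h) (N : ℕ) :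
    ∃ C : ℝ, ∀ y : V,
      ‖∫ ξ, h ξ * Complex.exp (((inner ℝ ξ y : ℝ) : ℂ) * Complex.I)‖
        ≤ C * ((1 + ‖y‖) ^ N)⁻¹ := by
  obtain ⟨C, hC0, hC⟩ := schwartz_decay (𝓕 (hc.toSchwartzMap hs)) N
  refine ⟨C * (2 * Real.pi) ^ N, fun y => ?_⟩
  rw [fi_eq]
  have h1 := hC (-((2 * Real.pi)⁻¹ • y))
  rw [SchwartzMap.fourier_coe] at h1
  refine h1.trans ?_
  rw [mul_assoc]
  refine mul_le_mul_of_nonneg_left ?_ hC0
  have hpi : (1 : ℝ) ≤ 2 * Real.pi := by linarith [Real.pi_gt_three]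
  have hpi0 : (0 : ℝ) < 2 * Real.pi := by linarith
  have e : (2 * Real.pi) ^ N * ((1 + ‖y‖) ^ N)⁻¹ = (((2 * Real.pi)⁻¹ * (1 + ‖y‖)) ^ N)⁻¹ := by
    rw [mul_pow _ (1 + ‖y‖), mul_inv, inv_pow, inv_inv]
  rw [e]
  apply inv_anti₀ (by positivity)
  apply pow_le_pow_left₀ (by positivity)
  rw [norm_neg, norm_smul, Real.norm_of_nonneg (by positivity), mul_add, mul_one]
  have : (2 * Real.pi)⁻¹ ≤ 1 := inv_le_one_of_one_le₀ hpi
  linarith

lemma exists_eta : ∃ h : V → ℂ, ContDiff ℝ (⊤ : ℕ∞) h ∧ HasCompactSupport h ∧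
    (∀ ξ, 1 < ‖ξ‖ → h ξ = 0) ∧
    (∀ y : V, ‖y‖ ≤ 1 → 1 ≤ ‖∫ ξ, h ξ * Complex.exp (((inner ℝ ξ y : ℝ) : ℂ) * Complex.I)‖) := by
  let b : ContDiffBump (0 : V) := ⟨1 / 4, 1 / 2, by norm_num, by norm_num⟩
  let φ : V → ℝ := b.normed volume
  have hφs : ContDiff ℝ (⊤ : ℕ∞) φ := b.contDiff_normed
  have hφc : HasCompactSupport φ := b.hasCompactSupport_normed
  have hφ0 : ∀ ξ, 0 ≤ φ ξ := fun ξ => b.nonneg_normed ξ
  have hφ1 : ∫ ξ, φ ξ = 1 := b.integral_normed
  have hφz : ∀ ξ, 1 / 2 < ‖ξ‖ → φ ξ = 0 := by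
    intro ξ hξ
    by_contra hne
    have : ξ ∈ Function.support φ := hne
    rw [b.support_normed_eq] at this
    have h2 : ‖ξ‖ < b.rOut := by simpa using this
    have h3 : b.rOut = 1 / 2 := rfl
    rw [h3] at h2
    linarith
  have hcs : HasCompactSupport (fun ξ => ((2 * φ ξ : ℝ) : ℂ)) := by
    refine hφc.mono ?_
    intro ξ hξ
    simp only [Function.mem_support] at hξ ⊢
    intro h0
    exact hξ (by simp [h0])
  refine ⟨fun ξ => ((2 * φ ξ : ℝ) : ℂ), ?_, hcs, ?_, ?_⟩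
  · exact Complex.ofRealCLM.contDiff.comp (contDiff_const.mul hφs)
  · intro ξ hξ
    change ((2 * φ ξ : ℝ) : ℂ) = 0
    rw [hφz ξ (by linarith)]
    simp
  · intro y hy
    have hφcont : Continuous φ := hφs.continuous
    have hint : Integrable
        (fun ξ => ((2 * φ ξ : ℝ) : ℂ) * Complex.exp (((inner ℝ ξ y : ℝ) : ℂ) * Complex.I)) := by
      apply Continuous.integrable_of_hasCompactSupport
      · fun_prop
      · exact hcs.mul_right
    refine le_trans ?_ (Complex.re_le_norm _)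
    have hre := integral_re hint
    have hre' : (∫ ξ, ((2 * φ ξ : ℝ) : ℂ) *
        Complex.exp (((inner ℝ ξ y : ℝ) : ℂ) * Complex.I)).re
        = ∫ ξ, 2 * φ ξ * Real.cos (inner ℝ ξ y) := by
      rw [← RCLike.re_eq_complex_re, ← hre]
      congr 1
      ext ξ
      rw [RCLike.re_eq_complex_re, Complex.re_ofReal_mul, Complex.exp_ofReal_mul_I_re]
    rw [hre']
    have hi1 : Integrable (fun ξ => φ ξ) := hφcont.integrable_of_hasCompactSupport hφc
    have hi2 : Integrable (fun ξ => 2 * φ ξ * Real.cos (inner ℝ ξ y)) := by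
      apply Continuous.integrable_of_hasCompactSupport
      · fun_prop
      · refine hφc.mono ?_
        intro ξ hξ
        simp only [Function.mem_support] at hξ ⊢
        intro h0
        exact hξ (by simp [h0])
    have hmono : ∫ ξ, φ ξ ≤ ∫ ξ, 2 * φ ξ * Real.cos (inner ℝ ξ y) := by
      apply integral_mono hi1 hi2
      intro ξ
      simp only
      by_cases hξ : ‖ξ‖ ≤ 1 / 2
      · have hin : |inner ℝ ξ y| ≤ 1 / 2 := by
          calc |inner ℝ ξ y| ≤ ‖ξ‖ * ‖y‖ := abs_real_inner_le_norm ξ y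
            _ ≤ 1 / 2 * 1 := by
              apply mul_le_mul hξ hy (norm_nonneg _) (by norm_num)
            _ = 1 / 2 := by norm_num
        have hcos := Real.one_sub_sq_div_two_le_cos (x := inner ℝ ξ y)
        have hsq : (inner ℝ ξ y) ^ 2 ≤ (1 / 2 : ℝ) ^ 2 := by
          rw [← sq_abs]
          exact pow_le_pow_left₀ (abs_nonneg _) hin 2
        have hc : (1 / 2 : ℝ) ≤ Real.cos (inner ℝ ξ y) := by
          norm_num at hsq
          linarith
        nlinarith [hφ0 ξ]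
      · rw [hφz ξ (by linarith [not_le.1 hξ])]
        simp
    linarith

end Gen

theorem pf_ETA : T_ETA := by
  intro m
  obtain ⟨h, hs, hc, h0, h1⟩ := exists_eta (V := E m)
  exact ⟨h, hs, h0, h1, fun N => decay_int h hc hs N⟩

end Pool.Agent.H60.BD
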