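import Pool.Agent.H60.BD.ETA

/-!
Row ETR of the board bdc_modules: row ETA on the line.
-/

open MeasureTheory SchwartzMap
open scoped ENNReal NNReal FourierTransform

namespace Pool.Agent.H60.BD

open Pool.Agent.H93.BD

theorem pf_ETR : T_ETR := by
  obtain ⟨h, hs, hc, h0, h1⟩ := exists_eta (V := ℝ)
  have e : ∀ y : ℝ, ∫ ξ, h ξ * Complex.exp (((inner ℝ ξ y : ℝ) : ℂ) * Complex.I)
      = ∫ ξ, h ξ * Complex.exp (((ξ * y : ℝ) : ℂ) * Complex.I) := by
    intro y
    congr 1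
    ext ξ
    have : (inner ℝ ξ y : ℝ) = ξ * y := by simp [mul_comm]
    rw [this]
  refine ⟨h, hs, fun ξ hξ => h0 ξ (by simpa using hξ), fun y hy => ?_, fun N => ?_⟩
  · rw [← e]
    exact h1 y (by simpa using hy)
  · obtain ⟨C, hC⟩ := decay_int h hc hs N
    refine ⟨C, fun y => ?_⟩
    rw [← e]
    simpa using hC y

end Pool.Agent.H60.BD
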