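import Pool.Agent.H93.BD.Targets
import Pool.Agent.H93.BD.Targets2

/-!
Row IFC of the board bdc_modules: local decoupling at a real scale, for separated centres.
-/

open MeasureTheory
open scoped ENNReal NNReal

namespace Pool.Agent.H60.BD

open Pool.Agent.H93.BD

/-- separated points in a small ball of `E m` -/
lemma card_separated (m : ℕ) {ι : Type} (T' : Finset ι) (c : ι → E m) (ξ : E m) (d : ℝ)
    (hd : 0 < d) (hsep : ∀ t ∈ T', ∀ t' ∈ T', t ≠ t' → d ≤ ‖c t - c t'‖)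
    (hball : ∀ t ∈ T', ‖ξ - c t‖ ≤ d) : T'.card ≤ (2 * (m + 1) + 1) ^ m := by
  classical
  let f : ι → (Fin m → ℤ) := fun t i => ⌊(c t i - ξ i + d) / d * (m + 1)⌋
  have hco : ∀ t ∈ T', ∀ i, |c t i - ξ i| ≤ d := by
    intro t ht i
    have h1 := hball t ht
    have h2 : ‖(ξ - c t) i‖ ≤ ‖ξ - c t‖ := PiLp.norm_apply_le (ξ - c t) i
    have h3 : (ξ - c t) i = ξ i - c t i := rfl
    rw [h3, Real.norm_eq_abs, abs_sub_comm] at h2
    exact h2.trans h1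
  have hmaps : ∀ t ∈ T', f t ∈ Fintype.piFinset (fun _ : Fin m => Finset.Icc (0 : ℤ) (2 * (m + 1))) := by
    intro t ht
    rw [Fintype.mem_piFinset]
    intro i
    rw [Finset.mem_Icc]
    have h := abs_le.1 (hco t ht i)
    constructor
    · apply Int.floor_nonneg.2
      apply mul_nonneg (div_nonneg (by linarith [h.1]) hd.le) (by positivity)
    · have : (c t i - ξ i + d) / d * ((m : ℝ) + 1) ≤ ((2 * ((m : ℤ) + 1) : ℤ) : ℝ) := by
        push_cast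
        apply mul_le_mul_of_nonneg_right _ (by positivity)
        rw [div_le_iff₀ hd]
        linarith [h.2]
      have h2 : ((f t i : ℤ) : ℝ) ≤ ((2 * ((m : ℤ) + 1) : ℤ) : ℝ) := (Int.floor_le _).trans this
      exact Int.cast_le.1 h2
  have hinj : Set.InjOn f T' := by
    intro t ht t' ht' hf
    by_contra hne
    have hs := hsep t ht t' ht' hne
    have hcoord : ∀ i, ((c t - c t') i) ^ 2 ≤ (d / (m + 1)) ^ 2 := by
      intro i
      have h1 : ⌊(c t i - ξ i + d) / d * (m + 1)⌋ = ⌊(c t' i - ξ i + d) / d * (m + 1)⌋ :=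
        congrFun hf i
      have h2 := Int.abs_sub_lt_one_of_floor_eq_floor h1
      have h3 : (c t i - ξ i + d) / d * (m + 1) - (c t' i - ξ i + d) / d * (m + 1)
          = (c t i - c t' i) * ((m + 1) / d) := by
        field_simp
        ring
      rw [h3, abs_mul, abs_of_pos (show (0 : ℝ) < (m + 1) / d by positivity),
        ← lt_div_iff₀ (by positivity), one_div_div] at h2
      have h4 : (c t - c t') i = c t i - c t' i := rfl
      rw [h4, ← sq_abs]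
      exact pow_le_pow_left₀ (abs_nonneg _) h2.le 2
    have h5 : ‖c t - c t'‖ ^ 2 ≤ m * (d / (m + 1)) ^ 2 := by
      rw [EuclideanSpace.norm_sq_eq]
      calc ∑ i, ‖(c t - c t') i‖ ^ 2 ≤ ∑ _i : Fin m, (d / (m + 1)) ^ 2 := by
            apply Finset.sum_le_sum
            intro i _
            rw [Real.norm_eq_abs, sq_abs]
            exact hcoord i
        _ = m * (d / (m + 1)) ^ 2 := by simp
    have h6 : d ^ 2 ≤ ‖c t - c t'‖ ^ 2 := pow_le_pow_left₀ hd.le hs 2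
    have h7 : (m : ℝ) * (d / (m + 1)) ^ 2 < d ^ 2 := by
      rw [div_pow, mul_div_assoc', div_lt_iff₀ (by positivity)]
      have hm : (m : ℝ) < (m + 1) ^ 2 := by nlinarith [(Nat.cast_nonneg m : (0 : ℝ) ≤ m)]
      nlinarith [pow_pos hd 2]
    linarith
  calc T'.card ≤ (Fintype.piFinset (fun _ : Fin m => Finset.Icc (0 : ℤ) (2 * (m + 1)))).card :=
        Finset.card_le_card_of_injOn f hmaps hinj
    _ = (2 * (m + 1) + 1) ^ m := by
        rw [Fintype.card_piFinset_const, Int.card_Icc]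
        congr 1

lemma wt_le (m N : ℕ) (K A : ℝ) (hK : 0 < K) (hA : 0 < A) (hAK : A ≤ 4 * K ^ 2) (y : X m) :
    wt N A y ≤ ENNReal.ofReal (4 ^ N) * ENNReal.ofReal (((1 + ‖y‖ / K ^ 2) ^ N)⁻¹) := by
  unfold wt
  rw [← ENNReal.ofReal_mul (by positivity)]
  apply ENNReal.ofReal_le_ofReal
  rw [← mul_inv, ← mul_pow]
  have e : (4 : ℝ) ^ N * ((1 + ‖y‖ / K ^ 2) ^ N)⁻¹ = (((1 + ‖y‖ / K ^ 2) / 4) ^ N)⁻¹ := by
    rw [div_pow _ (4 : ℝ), inv_div, div_eq_mul_inv ((4 : ℝ) ^ N)]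
  rw [e]
  apply inv_anti₀ (by positivity)
  apply pow_le_pow_left₀ (by positivity)
  have h1 : ‖y‖ / K ^ 2 ≤ 4 * (‖y‖ / A) := by
    rw [mul_div_assoc', div_le_div_iff₀ (by positivity) hA]
    nlinarith [norm_nonneg y]
  have h2 : ‖y‖ = max ‖y.1‖ ‖y.2‖ := rfl
  have h3 : 1 + ‖y‖ / A ≤ (1 + ‖y.1‖ / A) * (1 + |y.2| / A) := by
    have p1 : 0 ≤ ‖y.1‖ / A := by positivity
    have p2 : 0 ≤ |y.2| / A := by positivity
    rw [h2, Real.norm_eq_abs]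
    rcases max_choice ‖y.1‖ |y.2| with h | h <;> rw [h] <;> nlinarith [mul_nonneg p1 p2]
  have h4 : 0 ≤ ‖y‖ / A := by positivity
  linarith

theorem pf_IFC (hMAIN : T_MAIN) (_hFCT : T_FCT) : T_IFC := by
  intro m p hp hmp ε hε C0 N
  have hp0 : 0 < p := by linarith
  obtain ⟨C, hC, H⟩ := hMAIN m p hp hmp (ε / p) (by positivity) (4 * |C0|) C0 N
    ((2 * (m + 1) + 1) ^ m)
  refine ⟨C ^ p * 2 ^ ε * 4 ^ N, by positivity, ?_⟩
  intro K hK ι T c g hcC hsep hg x0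
  obtain ⟨n, hn1, hn2⟩ := exists_nat_pow_near hK (by norm_num : (1 : ℝ) < 2)
  obtain ⟨a, ha⟩ : ∃ a, a = n + 1 := ⟨_, rfl⟩
  have hK0 : 0 < K := by linarith
  have h2a : K ≤ 2 ^ a := by rw [ha]; exact hn2.le
  have h2a' : (2 : ℝ) ^ a ≤ 2 * K := by rw [ha, pow_succ]; linarith
  have h4a : (4 : ℝ) ^ a = (2 ^ a) ^ 2 := by
    rw [← pow_mul, mul_comm a 2, pow_mul]
    norm_num
  have hA1 : (4 : ℝ) ^ a ≤ 4 * K ^ 2 := by
    rw [h4a]
    calc ((2 : ℝ) ^ a) ^ 2 ≤ (2 * K) ^ 2 := pow_le_pow_left₀ (by positivity) h2a' 2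
      _ = 4 * K ^ 2 := by ring
  have hA2 : K ^ 2 ≤ (4 : ℝ) ^ a := by
    rw [h4a]
    exact pow_le_pow_left₀ hK0.le h2a 2
  have hcap : ∀ t ∈ T, InCap (4 * |C0|) (1 / 2 ^ a) (c t) (g t) := by
    intro t ht
    obtain ⟨hi, hs⟩ := hg t ht
    refine ⟨hi, fun z hz => ?_⟩
    obtain ⟨h1, h2⟩ := hs z hz
    constructor
    · refine h1.trans ?_
      rw [mul_one_div, div_le_div_iff₀ hK0 (by positivity)]
      nlinarith [le_abs_self C0, abs_nonneg C0, pow_pos (two_pos : (0 : ℝ) < 2) a]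
    · refine h2.trans ?_
      rw [div_pow, one_pow, ← h4a, mul_one_div, div_le_div_iff₀ (by positivity) (by positivity)]
      nlinarith [le_abs_self C0, abs_nonneg C0, pow_pos (show (0 : ℝ) < 4 by norm_num) a]
  have hover : ∀ ξ : E m, ∀ T' ⊆ T, (∀ t ∈ T', ‖ξ - c t‖ ≤ 1 / 2 ^ a) →
      T'.card ≤ (2 * (m + 1) + 1) ^ m := by
    intro ξ T' hT' hb
    apply card_separated m T' c ξ (1 / 2 ^ a) (by positivity) _ hb
    intro t ht t' ht' hne
    refine le_trans ?_ (hsep t (hT' ht) t' (hT' ht') hne)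
    exact one_div_le_one_div_of_le hK0 h2a
  have hmain := H a ι T c g hcC hcap hover x0
  have hsub : Metric.closedBall x0 (K ^ 2)
      ⊆ {x : X m | ‖x.1 - x0.1‖ ≤ 4 ^ a ∧ |x.2 - x0.2| ≤ 4 ^ a} := by
    intro x hx
    rw [Metric.mem_closedBall, Prod.dist_eq] at hx
    have h1 : dist x.1 x0.1 ≤ K ^ 2 := (le_max_left _ _).trans hx
    have h2 : dist x.2 x0.2 ≤ K ^ 2 := (le_max_right _ _).trans hx
    rw [dist_eq_norm] at h1
    rw [Real.dist_eq] at h2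
    exact ⟨h1.trans hA2, h2.trans hA2⟩
  refine (lintegral_mono_set hsub).trans (hmain.trans ?_)
  -- the weights
  have hw : ∀ t ∈ T, ∫⁻ x, ‖FI (g t) x‖ₑ ^ p * wt N (4 ^ a) (x - x0)
      ≤ ENNReal.ofReal (4 ^ N) * ∫⁻ x, ‖FI (g t) x‖ₑ ^ p *
        ENNReal.ofReal (((1 + ‖x - x0‖ / K ^ 2) ^ N)⁻¹) := by
    intro t _
    rw [← lintegral_const_mul' _ _ ENNReal.ofReal_ne_top]
    apply lintegral_mono
    intro x
    calc ‖FI (g t) x‖ₑ ^ p * wt N (4 ^ a) (x - x0)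
        ≤ ‖FI (g t) x‖ₑ ^ p * (ENNReal.ofReal (4 ^ N) *
          ENNReal.ofReal (((1 + ‖x - x0‖ / K ^ 2) ^ N)⁻¹)) :=
          mul_le_mul_right (wt_le m N K (4 ^ a) hK0 (by positivity) hA1 (x - x0)) _
      _ = ENNReal.ofReal (4 ^ N) * (‖FI (g t) x‖ₑ ^ p *
          ENNReal.ofReal (((1 + ‖x - x0‖ / K ^ 2) ^ N)⁻¹)) := by ring
  have hsum : (∑ t ∈ T, (∫⁻ x, ‖FI (g t) x‖ₑ ^ p * wt N (4 ^ a) (x - x0)) ^ (2 / p)) ^ (p / 2)
      ≤ ENNReal.ofReal (4 ^ N) * (∑ t ∈ T, (∫⁻ x, ‖FI (g t) x‖ₑ ^ p *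
        ENNReal.ofReal (((1 + ‖x - x0‖ / K ^ 2) ^ N)⁻¹)) ^ (2 / p)) ^ (p / 2) := by
    have e : ENNReal.ofReal (4 ^ N) = (ENNReal.ofReal (4 ^ N) ^ (2 / p)) ^ (p / 2) := by
      rw [← ENNReal.rpow_mul]
      have : 2 / p * (p / 2) = 1 := by field_simp
      rw [this, ENNReal.rpow_one]
    conv_rhs => rw [e]
    rw [← ENNReal.mul_rpow_of_nonneg _ _ (by positivity)]
    apply ENNReal.rpow_le_rpow _ (by positivity)
    rw [Finset.mul_sum]
    apply Finset.sum_le_sum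
    intro t ht
    rw [← ENNReal.mul_rpow_of_nonneg _ _ (by positivity)]
    exact ENNReal.rpow_le_rpow (hw t ht) (by positivity)
  have hconst : ENNReal.ofReal (C * 2 ^ (ε / p * a)) ^ p * ENNReal.ofReal (4 ^ N)
      ≤ ENNReal.ofReal (C ^ p * 2 ^ ε * 4 ^ N * K ^ ε) := by
    rw [ENNReal.ofReal_rpow_of_nonneg (by positivity) hp0.le, ← ENNReal.ofReal_mul (by positivity)]
    apply ENNReal.ofReal_le_ofReal
    rw [Real.mul_rpow hC.le (by positivity), ← Real.rpow_mul (by norm_num)]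
    have e1 : ε / p * a * p = a * ε := by field_simp
    rw [e1, Real.rpow_mul (by norm_num), Real.rpow_natCast]
    have e2 : ((2 : ℝ) ^ a) ^ ε ≤ 2 ^ ε * K ^ ε := by
      rw [← Real.mul_rpow (by norm_num) hK0.le]
      exact Real.rpow_le_rpow (by positivity) h2a' hε.le
    have e3 : 0 < C ^ p := by positivity
    have e4 : (0 : ℝ) < 4 ^ N := by positivity
    calc C ^ p * ((2 : ℝ) ^ a) ^ ε * 4 ^ N ≤ C ^ p * (2 ^ ε * K ^ ε) * 4 ^ N := by
          gcongr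
      _ = C ^ p * 2 ^ ε * 4 ^ N * K ^ ε := by ring
  calc ENNReal.ofReal (C * 2 ^ (ε / p * a)) ^ p *
        (∑ t ∈ T, (∫⁻ x, ‖FI (g t) x‖ₑ ^ p * wt N (4 ^ a) (x - x0)) ^ (2 / p)) ^ (p / 2)
      ≤ ENNReal.ofReal (C * 2 ^ (ε / p * a)) ^ p * (ENNReal.ofReal (4 ^ N) *
        (∑ t ∈ T, (∫⁻ x, ‖FI (g t) x‖ₑ ^ p *
        ENNReal.ofReal (((1 + ‖x - x0‖ / K ^ 2) ^ N)⁻¹)) ^ (2 / p)) ^ (p / 2)) :=
        mul_le_mul_right hsum _
    _ = (ENNReal.ofReal (C * 2 ^ (ε / p * a)) ^ p * ENNReal.ofReal (4 ^ N)) *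
        (∑ t ∈ T, (∫⁻ x, ‖FI (g t) x‖ₑ ^ p *
        ENNReal.ofReal (((1 + ‖x - x0‖ / K ^ 2) ^ N)⁻¹)) ^ (2 / p)) ^ (p / 2) := by ring
    _ ≤ _ := mul_le_mul_left hconst _

end Pool.Agent.H60.BD
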